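import Pool.Agent.K4H3.FE.One

/-!
# The index of `2^s - 1` and `2^s + 1`, `s` even, modulo a Fermat prime

Let `m ≥ 4` and let `s = 2^r t` with `t` odd and `1 ≤ r ≤ m`.  If `F_m = 2^(2^m) + 1` is prime then
`(2^s - 1)^((F_m - 1) / 2^(m+1)) = 2^E` with an explicit `E` modulo `2^(m+1)`, and the congruence
conversely forces `F_m` to be prime if `2^(m+1)` does not divide `E`.  If `2^r ≤ m + 2`, this gives
Pépin tests in all the bases `2^s - 1` and `2^s + 1`, among them all Fermat numbers `F_r` with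
`2^r ≤ m + 2`.  If `2^r > m + 2` these numbers are `2^(m+1)`-th power residues modulo `F_m` whenever
`F_m` is prime.
-/

namespace Pool.Agent.Results.MP_37e5fa_nt.EvenIndex

/-- `+1` if the least residue of `k / t` modulo `2^(μ+1)` is less than `2^μ`, and `-1` otherwise. -/
def sgn (μ t k : ℕ) : ℤ :=
  if ((k : ZMod (2 ^ (μ + 1))) * (t : ZMod (2 ^ (μ + 1)))⁻¹).val < 2 ^ μ then 1 else -1

/-- The correction term: for `r = 1` it is `2^(m+2)` if the signs of `1 / t` and `2 / t` modulo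
`2^(m+1)` agree and `0` otherwise, for `r = 2` it is `2^(m+1)`, for `r ≥ 3` it is `0`. -/
def corr (m r t : ℕ) : ℤ :=
  if r = 1 then (if sgn m t 1 = sgn m t 2 then 2 ^ (m + 2) else 0)
  else if r = 2 then 2 ^ (m + 1) else 0

/-- `4 E ≡ t ∑_{k=1}^{m+2} ε(k) 2^(2^r k) / k + corr` modulo `2^(m+3)`, in the ring of rational
numbers with odd denominator; `ε(k)` is the sign of `k / t` modulo `2^(m-r+1)`. -/
def Ind (m r t E : ℕ) : Prop :=
  ∃ d n : ℤ, Odd d ∧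
    (d : ℚ) * (4 * E - t * ∑ k ∈ Finset.Icc 1 (m + 2), (sgn (m - r) t k : ℚ) * 2 ^ (2 ^ r * k) / k -
      corr m r t) = 2 ^ (m + 3) * n

/-- The case `t = 1`: `4 E ≡ ∑_{k=1}^{m+2} 2^(2^r k) / k + corr` modulo `2^(m+3)`, where `corr` is
`2^(m+2)`, `2^(m+1)`, `0` for `r = 1`, `r = 2`, `r ≥ 3`. -/
def Ind1 (m r E : ℕ) : Prop :=
  ∃ d n : ℤ, Odd d ∧
    (d : ℚ) * (4 * E - ∑ k ∈ Finset.Icc 1 (m + 2), (2 : ℚ) ^ (2 ^ r * k) / k -
      (if r = 1 then 2 ^ (m + 2) else if r = 2 then 2 ^ (m + 1) else 0)) = 2 ^ (m + 3) * n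

lemma sum_eq (m : ℕ) (f : ℕ → ℚ) :
    ∑ k ∈ Finset.Icc 1 (m + 2), f k = ∑ j ∈ Finset.range (m + 2), f (j + 1) := by
  have h2 : Finset.Icc 1 (m + 2) = Finset.Ico 1 (m + 2 + 1) := by
    ext k
    simp only [Finset.mem_Icc, Finset.mem_Ico]
    omega
  rw [h2, Finset.sum_Ico_eq_sum_range, Nat.add_sub_cancel]
  exact Finset.sum_congr rfl fun k _ => by rw [add_comm 1 k]

lemma sum_AA (m r t : ℕ) :
    ∑ k ∈ Finset.Icc 1 (m + 2), (sgn (m - r) t k : ℚ) * 2 ^ (2 ^ r * k) / k =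
      Pool.Agent.Y875.FP.AA (m - r) (2 ^ 2 ^ r) t (m + 2) := by
  unfold Pool.Agent.Y875.FP.AA
  rw [sum_eq]
  refine Finset.sum_congr rfl fun k _ => ?_
  have h1 : (((2 : ℕ) ^ 2 ^ r : ℕ) : ℚ) ^ (k + 1) = (2 : ℚ) ^ (2 ^ r * (k + 1)) := by
    push_cast
    rw [← pow_mul]
  rw [mul_div_assoc, h1]
  rfl

open Pool.Agent.K4H3.FE

lemma corr_del (m r t : ℕ) : D2 (m + 3) ((corr m r t : ℚ) - (del m r t : ℚ)) := by
  have hs : ∀ k, sgn m t k = Pool.Agent.Y875.FP.sgn m t k := fun _ => rfl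
  unfold corr del
  by_cases h1 : r = 1
  · rw [if_pos h1, if_pos h1, hs, hs]
    rcases sgn_or' m t 1 with h2 | h2 <;> rcases sgn_or' m t 2 with h3 | h3 <;> rw [h2, h3]
    · rw [if_pos rfl]
      convert D2.zero _ using 1
      push_cast
      ring
    · rw [if_neg (by norm_num)]
      convert D2.zero _ using 1
      push_cast
      ring
    · rw [if_neg (by norm_num)]
      convert D2.int (N := m + 3) (-1) using 1
      push_cast
      ring
    · rw [if_pos rfl]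
      convert D2.zero _ using 1
      push_cast
      ring
  · rw [if_neg h1, if_neg h1, sub_self]
    exact D2.zero _

lemma ind_iff (m r t E : ℕ) : Ind m r t E ↔ Law m r t E := by
  have h := corr_del m r t
  have e : Ind m r t E ↔ D2 (m + 3) (4 * E - t * Pool.Agent.Y875.FP.AA (m - r) (2 ^ 2 ^ r) t (m + 2) -
      corr m r t) := by
    unfold Ind D2
    rw [sum_AA]
  rw [e]
  unfold Law
  constructor
  · intro h1
    have := h1.add h
    convert this using 1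
    ring
  · intro h1
    have := h1.sub h
    convert this using 1
    ring

lemma sgn_one (m k : ℕ) (hk : k < 2 ^ m) : sgn m 1 k = 1 := sgn_one_small hk

lemma ind1_iff {m r E : ℕ} (hm : 4 ≤ m) (hr : 1 ≤ r) (hrm : r ≤ m) :
    Ind1 m r E ↔ Ind m r 1 E := by
  have hb := bigm hm
  have e1 : Ind m r 1 E ↔ D2 (m + 3) (4 * E - Pool.Agent.Y875.FP.AA (m - r) (2 ^ 2 ^ r) 1 (m + 2) -
      corr m r 1) := by
    unfold Ind D2
    rw [sum_AA]
    push_cast
    simp only [one_mul]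
  have e2 : Ind1 m r E ↔ D2 (m + 3) (4 * E - ∑ j ∈ Finset.range (m + 2),
      (2 : ℚ) ^ (2 ^ r * (j + 1)) / ((j + 1 : ℕ) : ℚ) - corr m r 1) := by
    unfold Ind1 D2
    rw [sum_eq]
    have hc : ((corr m r 1 : ℤ) : ℚ) =
        (if r = 1 then 2 ^ (m + 2) else if r = 2 then 2 ^ (m + 1) else 0) := by
      unfold corr
      rw [sgn_one m 1 (by omega), sgn_one m 2 (by omega), if_pos (rfl : (1 : ℤ) = 1)]
      split_ifs <;> simp
    rw [hc]
  have h := D2_one hm hr hrm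
  rw [e1, e2]
  constructor
  · intro h1
    have := h1.sub h
    convert this using 1
    ring
  · intro h1
    have := h1.add h
    convert this using 1
    ring

theorem result (m : ℕ) (hm : 4 ≤ m) (r : ℕ) (hr : 1 ≤ r) (hrm : r ≤ m) :
    -- the index law for `2^s - 1`, `s = 2^r t`, and its converse
    (∀ t : ℕ, Odd t → (∃ E : ℕ, Ind m r t E) ∧ ∀ E : ℕ, Ind m r t E →
      ((Nat.fermatNumber m).Prime → ((2 ^ (2 ^ r * t) - 1 : ℕ) : ZMod (Nat.fermatNumber m)) ^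
        ((Nat.fermatNumber m - 1) / 2 ^ (m + 1)) = 2 ^ E) ∧
      (¬ 2 ^ (m + 1) ∣ E → ((2 ^ (2 ^ r * t) - 1 : ℕ) : ZMod (Nat.fermatNumber m)) ^
        ((Nat.fermatNumber m - 1) / 2 ^ (m + 1)) = 2 ^ E → (Nat.fermatNumber m).Prime)) ∧
    -- for `t = 1` there are no signs
    (∀ E : ℕ, Ind1 m r E ↔ Ind m r 1 E) ∧
    -- Pépin tests in the bases `2^s - 1` and `2^s + 1`
    (2 ^ r ≤ m + 2 → ∀ t : ℕ, Odd t →
      ((Nat.fermatNumber m).Prime ↔ ((2 ^ (2 ^ r * t) - 1 : ℕ) : ZMod (Nat.fermatNumber m)) ^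
        ((Nat.fermatNumber m - 1) / 2 ^ (2 ^ r - 1)) = -1) ∧
      ((Nat.fermatNumber m).Prime ↔ ((2 ^ (2 ^ r * t) + 1 : ℕ) : ZMod (Nat.fermatNumber m)) ^
        ((Nat.fermatNumber m - 1) / 2 ^ (2 ^ r - 1)) = -1)) ∧
    -- the remaining bases are `2^(m+1)`-th power residues
    (m + 2 < 2 ^ r → (Nat.fermatNumber m).Prime → ∀ t : ℕ, Odd t →
      ((2 ^ (2 ^ r * t) - 1 : ℕ) : ZMod (Nat.fermatNumber m)) ^
        ((Nat.fermatNumber m - 1) / 2 ^ (m + 1)) = 1 ∧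
      (r < m → ((2 ^ (2 ^ r * t) + 1 : ℕ) : ZMod (Nat.fermatNumber m)) ^
        ((Nat.fermatNumber m - 1) / 2 ^ (m + 1)) = 1)) := by
  have hb := bigm hm
  have hexp : ∀ c, c ≤ 2 ^ m → (Nat.fermatNumber m - 1) / 2 ^ c = 2 ^ (2 ^ m - c) := by
    intro c hc
    unfold Nat.fermatNumber
    rw [Nat.add_sub_cancel, Nat.pow_div hc (by norm_num)]
  have hcast : ∀ s, ((2 ^ s - 1 : ℕ) : ZMod (Nat.fermatNumber m)) = 2 ^ s - 1 := by
    intro s
    rw [Nat.cast_sub Nat.one_le_two_pow]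
    push_cast
    ring
  have hcast' : ∀ s, ((2 ^ s + 1 : ℕ) : ZMod (Nat.fermatNumber m)) = 2 ^ s + 1 := by
    intro s
    push_cast
    ring
  refine ⟨?_, fun E => ind1_iff hm hr hrm, ?_, ?_⟩
  · intro t ht
    obtain ⟨E0, h0, h0'⟩ := law_all hm hr t hrm ht
    refine ⟨⟨E0, (ind_iff m r t E0).mpr h0⟩, fun E hE => ?_⟩
    rw [ind_iff] at hE
    rw [hexp _ (by omega), hcast]
    exact ⟨fun hF => (h0' hF).trans (law_unique h0 hE),
      fun hd h => Pool.Agent.Y875.FP.mersenne_conv hm hd h⟩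
  · intro h2r t ht
    rw [hexp _ (by omega)]
    refine ⟨⟨fun hF => ?_, fun h => ?_⟩, ⟨fun hF => ?_, fun h => ?_⟩⟩
    · rw [hcast]
      exact (small hm hr h2r ht hF).1
    · exact prime_of_pow (c := 2 ^ m - (2 ^ r - 1)) (by omega) h
    · rw [hcast']
      exact (small hm hr h2r ht hF).2
    · exact prime_of_pow (c := 2 ^ m - (2 ^ r - 1)) (by omega) h
  · intro h2r hF t ht
    rw [hexp _ (by omega), hcast, hcast']
    exact large hm hrm h2r ht hF

end Pool.Agent.Results.MP_37e5fa_nt.EvenIndex
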