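import Pool.Agent.K4H55.Fermat.AllChars

/-!
# Exact Gauss and Jacobi sums of `2`-power order modulo Fermat primes

Let `F = b^(2^J) + 1` be a prime number with `b` even (a Fermat prime for `b = 2`), `2 ≤ k ≤ J + 1`,
`N = 2^k`, `n = (F - 1) / N`, `x = b^(2^(J+1-k))`, which has order `N` modulo `F`, and let `χ` be a
character of order `N` modulo `F`.  Then there is a primitive `N`-th root of unity `ζ` with
`χ t = ζ^i` whenever `t^n = x^i`, and, without any ambiguous root of unity,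

* `χ(4) J(χ, χ) = - s ∏ (1 - x ζ^(-1/c))`, over the odd `c < N/2`, with `1/c` modulo `N`
  (`s = 1` unless `J = 1` and `b = 2` modulo `4`, when `s = -1`);
* `g(χ)^N = F ∏_{i < k-1} (∏_c (1 - x^(2^i) ζ^(-2^i/c)))^(2^(k-1-i))` over the odd `c < 2^(k-1-i)`;
* `binom(2n, n) = s 4^n ∏ (1 - x^(1+1/c))` modulo `F`, over the odd `c < N/2`.
-/

set_option autoImplicit false

namespace Pool.Agent.Results.MP_37e5fa_nt.ExactGaussSums

open Finset

/-- `inv k c` is the inverse of `c` modulo `2^k`, a natural number below `2^k`. -/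
def inv (k c : ℕ) : ℕ := ((c : ZMod (2 ^ k))⁻¹).val

/-- The odd natural numbers below `N`. -/
def odds (N : ℕ) : Finset ℕ := (range N).filter Odd

/-- `∏ (1 - x ζ^(-1/c))` over the odd `c < 2^(k-1)`, where `1/c` is the inverse modulo `2^k` and
`ζ` is a `2^k`-th root of unity. -/
noncomputable def jacobiProd (k x : ℕ) (ζ : ℂ) : ℂ :=
  ∏ c ∈ odds (2 ^ (k - 1)), (1 - (x : ℂ) * ζ ^ (2 ^ k - inv k c))

/-- The sign. -/
def sgn (b J : ℕ) : ℤ := if J = 1 ∧ b % 4 = 2 then -1 else 1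

theorem result (b J k n x : ℕ) (hb : Even b) (hk : 2 ≤ k) (hkJ : k ≤ J + 1)
    (hp : Fact (b ^ (2 ^ J) + 1).Prime) (hn : n = b ^ (2 ^ J) / 2 ^ k)
    (hx : x = b ^ (2 ^ (J + 1 - k))) :
    (∀ χ : MulChar (ZMod (b ^ (2 ^ J) + 1)) ℂ, orderOf χ = 2 ^ k →
      ∃ ζ : ℂ, IsPrimitiveRoot ζ (2 ^ k) ∧
        (∀ t : ZMod (b ^ (2 ^ J) + 1), t ≠ 0 → ∀ i : ℕ,
          t ^ n = (x : ZMod (b ^ (2 ^ J) + 1)) ^ i → χ t = ζ ^ i) ∧
        χ 4 * jacobiSum χ χ = -(sgn b J : ℂ) * jacobiProd k x ζ ∧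
        ∀ ψ : AddChar (ZMod (b ^ (2 ^ J) + 1)) ℂ, ψ.IsPrimitive →
          gaussSum χ ψ ^ (2 ^ k) = ((b ^ (2 ^ J) + 1 : ℕ) : ℂ) *
            ∏ i ∈ range (k - 1),
              jacobiProd (k - i) (x ^ (2 ^ i)) (ζ ^ (2 ^ i)) ^ (2 ^ (k - 1 - i))) ∧
    (((2 * n).choose n : ℕ) : ZMod (b ^ (2 ^ J) + 1)) =
      (sgn b J : ZMod (b ^ (2 ^ J) + 1)) * 4 ^ n *
        ∏ c ∈ odds (2 ^ (k - 1)), (1 - (x : ZMod (b ^ (2 ^ J) + 1)) ^ (1 + inv k c)) := by
  obtain ⟨j, rfl⟩ : ∃ j, k = j + 1 := ⟨k - 1, by omega⟩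
  have hlevel : b ^ (2 ^ J) + 1 = x ^ (2 ^ j) + 1 := by
    rw [hx, ← pow_mul, ← pow_add]; congr 3; omega
  have hdvd : 2 ^ (j + 1) ∣ b ^ (2 ^ J) := by
    have h1 : J + 1 ≤ 2 ^ J := Nat.lt_two_pow_self
    exact (pow_dvd_pow 2 (hkJ.trans h1)).trans (pow_dvd_pow_of_dvd hb.two_dvd _)
  have hsg : (j = 1 ∧ x % 4 = 2) ↔ (J = 1 ∧ b % 4 = 2) := by
    rw [hx]
    constructor
    · rintro ⟨h1, h2⟩
      subst h1
      by_cases hJ : J = 1
      · subst hJ; simpa using h2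
      · exfalso
        have h3 : 4 ∣ b ^ (2 ^ (J + 1 - (1 + 1))) := by
          calc 4 = 2 ^ 2 := rfl
            _ ∣ 2 ^ (2 ^ (J + 1 - (1 + 1))) := pow_dvd_pow 2 (by
                calc 2 = 2 ^ 1 := rfl
                  _ ≤ 2 ^ (J + 1 - (1 + 1)) := Nat.pow_le_pow_right (by norm_num) (by omega))
            _ ∣ _ := pow_dvd_pow_of_dvd hb.two_dvd _
        omega
    · rintro ⟨h1, h2⟩
      subst h1
      have hk2 : j = 1 := by omega
      subst hk2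
      simpa using h2
  have hsgn : K4H55.Fermat.sg j x = sgn b J := by
    unfold K4H55.Fermat.sg sgn
    by_cases hc : J = 1 ∧ b % 4 = 2
    · rw [if_pos (hsg.mpr hc), if_pos hc]
    · rw [if_neg (fun h => hc (hsg.mp h)), if_neg hc]
  have hxe : Even x := by rw [hx]; exact Nat.even_pow.mpr ⟨hb, by positivity⟩
  have hn' : 2 ^ (j + 1) * n = b ^ (2 ^ J) + 1 - 1 := by
    rw [hn, Nat.mul_div_cancel' hdvd, Nat.add_sub_cancel]
  have h4 : 4 ∣ b ^ (2 ^ J) + 1 - 1 := by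
    rw [← hn']
    exact Dvd.dvd.mul_right (by
      calc 4 = 2 ^ 2 := rfl
        _ ∣ 2 ^ (j + 1) := pow_dvd_pow 2 hk) n
  refine ⟨?_, ?_⟩
  · intro χ hχ
    obtain ⟨ζ, hζ, hres⟩ := K4H55.Fermat.exists_zeta hlevel hxe hn' χ hχ
    refine ⟨ζ, hζ, hres, ?_, ?_⟩
    · rw [K4H55.Fermat.jacobi_complex (by omega) hlevel hxe hn' ζ hζ χ hres, hsgn]
      rfl
    · intro ψ hψ
      rw [K4H55.Fermat.gauss_power j n x ζ χ ψ hlevel hxe h4 hn' hζ hres hψ]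
      rw [Nat.add_sub_cancel]
      congr 1
      refine Finset.prod_congr rfl fun i hi => ?_
      have hi' := Finset.mem_range.mp hi
      rw [show j + 1 - i = (j - i) + 1 by omega]
      rfl
  · rw [K4H55.Fermat.gauss_congr (by omega) hlevel hxe hn', hsgn]
    rfl

end Pool.Agent.Results.MP_37e5fa_nt.ExactGaussSums
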