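import Pool.Agent.K4H55.Fermat.Final

/-!
# Wilson's theorem cut at all levels up to `(F_m - 1) / 2^(m+1)`

Let `F = F_m`, `2 ≤ k ≤ m + 1`, `N = 2^k`, `n = (F - 1) / N`, `x = 2^(2^(m+1-k))` (an element of
order `N` modulo `F`) and let `c*` be the inverse of `c` modulo `N`.  Then `F` is prime if and only
if `(n!)^N * ∏_{c < N odd} (x - x^(c*))^(c-1) = 1` modulo `F` (for `k = 0` this would be Wilson's
theorem).  The same holds for the generalised Fermat numbers `b^(2^J) + 1`, `b` even, of which the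
Fermat numbers are the case `b = 2`.
-/

set_option autoImplicit false

namespace Pool.Agent.Results.MP_37e5fa_nt.FractionalWilson

open Finset

/-- `inv k c` is the inverse of `c` modulo `2^k`, a natural number below `2^k`. -/
def inv (k c : ℕ) : ℕ := ((c : ZMod (2 ^ k))⁻¹).val

/-- The odd natural numbers below `N`. -/
def odds (N : ℕ) : Finset ℕ := (range N).filter Odd

/-- `∏ (x - x^(c*))^(c-1)` over the odd `c < 2^k`, modulo `F`. -/
def wilsonProd (F k x : ℕ) : ZMod F :=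
  ∏ c ∈ odds (2 ^ k), ((x : ZMod F) - (x : ZMod F) ^ inv k c) ^ (c - 1)

theorem result :
    -- Fermat numbers
    (∀ m k : ℕ, 3 ≤ m → 2 ≤ k → k ≤ m + 1 →
      ((Nat.fermatNumber m).Prime ↔
        ((((Nat.fermatNumber m - 1) / 2 ^ k).factorial : ℕ) : ZMod (Nat.fermatNumber m)) ^ (2 ^ k) *
          wilsonProd (Nat.fermatNumber m) k (2 ^ (2 ^ (m + 1 - k))) = 1)) ∧
    -- generalised Fermat numbers
    (∀ b J k : ℕ, Even b → 0 < b → 2 ≤ k → k ≤ J + 1 → 2 ^ k ≤ b ^ (2 ^ (J - 1)) →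
      ((b ^ (2 ^ J) + 1).Prime ↔
        (((b ^ (2 ^ J) / 2 ^ k).factorial : ℕ) : ZMod (b ^ (2 ^ J) + 1)) ^ (2 ^ k) *
          wilsonProd (b ^ (2 ^ J) + 1) k (b ^ (2 ^ (J + 1 - k))) = 1)) := by
  have hdvd : ∀ b J k : ℕ, Even b → k ≤ J + 1 → 2 ^ k ∣ b ^ (2 ^ J) := by
    intro b J k hb hkJ
    have h1 : J + 1 ≤ 2 ^ J := Nat.lt_two_pow_self
    exact (pow_dvd_pow 2 (hkJ.trans h1)).trans (pow_dvd_pow_of_dvd hb.two_dvd _)
  have hgen : ∀ b J k : ℕ, Even b → 0 < b → 2 ≤ k → k ≤ J + 1 → 2 ^ k ≤ b ^ (2 ^ (J - 1)) →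
      ((b ^ (2 ^ J) + 1).Prime ↔
        (((b ^ (2 ^ J) / 2 ^ k).factorial : ℕ) : ZMod (b ^ (2 ^ J) + 1)) ^ (2 ^ k) *
          wilsonProd (b ^ (2 ^ J) + 1) k (b ^ (2 ^ (J + 1 - k))) = 1) := by
    intro b J k hb hb0 hk hkJ hl
    exact K4H55.Fermat.criterion hb hb0 hk hkJ hl rfl
      (by rw [Nat.mul_div_cancel' (hdvd b J k hb hkJ), Nat.add_sub_cancel])
  have hfer : ∀ m : ℕ, Nat.fermatNumber m = 2 ^ (2 ^ m) + 1 := fun m => rfl
  refine ⟨?_, hgen⟩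
  intro m k hm hk hkm
  have hl : 2 ^ k ≤ 2 ^ (2 ^ (m - 1)) := by
    apply Nat.pow_le_pow_right (by norm_num)
    refine hkm.trans ?_
    obtain ⟨i, rfl⟩ : ∃ i, m = i + 3 := ⟨m - 3, by omega⟩
    have h1 : i + 1 ≤ 2 ^ i := Nat.lt_two_pow_self
    calc i + 3 + 1 ≤ 4 * (i + 1) := by omega
      _ ≤ 4 * 2 ^ i := by omega
      _ = 2 ^ (i + 3 - 1) := by rw [show i + 3 - 1 = i + 2 by omega, pow_add]; ring
  have h := hgen 2 m k even_two (by norm_num) hk hkm hl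
  rw [hfer m, Nat.add_sub_cancel]
  exact h

end Pool.Agent.Results.MP_37e5fa_nt.FractionalWilson
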