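import Pool.Agent.K4H3.FE.Odd2

/-!
# The index of `2^s - 1` and `2^s + 1`, `s` odd, modulo a Fermat prime

Let `m ≥ 4`, let `s` be odd and let `c` be the odd number with `0 < c < 2^m` and `s c ≡ ± 1` modulo
`2^(m+1)`.  If `F_m` is prime, then the exact power of two dividing the index of `2^s - 1` modulo
`F_m` is read off from the partial sum `S_N = 2/1 + 2^2/2 + ... + 2^N/N`, `N = ⌊2^m / c⌋`, of the
series `∑ 2^k / k`, which converges to `0` in the `2`-adic numbers: it is `2^v` with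
`v = v_2(S_N) - 1`.  This gives a Pépin test in the base `2^s - 1`.  The same holds for `2^s + 1`
with `2^m - c` in place of `c`.
-/

namespace Pool.Agent.Results.MP_37e5fa_nt.OddIndex

/-- `S_N = ∑_{k=1}^N 2^k / k`. -/
def S (N : ℕ) : ℚ := ∑ k ∈ Finset.Icc 1 N, (2 : ℚ) ^ k / k

/-- `2^v` divides the rational number `q` exactly: `q = 2^v a / w` with `a`, `w` odd. -/
def Exact (v : ℕ) (q : ℚ) : Prop := ∃ a w : ℤ, Odd a ∧ Odd w ∧ (w : ℚ) * q = 2 ^ v * a

/-- `k - v_2(k) ≥ B` for all `k > n`. -/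
def Tail (n B : ℕ) : Prop := ∀ k, n < k → ∀ e : ℕ, 2 ^ e ∣ k → e + B ≤ k

/-- the Pépin test in the base `b` with the exponent `(F_m - 1) / 2^(v+1)` -/
def Test (m v : ℕ) (b : ℕ) : Prop :=
  (Nat.fermatNumber m).Prime ↔
    (b : ZMod (Nat.fermatNumber m)) ^ ((Nat.fermatNumber m - 1) / 2 ^ (v + 1)) = -1

/-- The law for the number `N` and the base `b`. -/
def Law (m N b : ℕ) : Prop :=
  -- the table of `v` for `N ≤ 8`
  (∀ v, v ≤ m → (N, v) ∈ [(1, 0), (2, 1), (3, 1), (4, 4), (5, 7), (6, 4), (7, 4), (8, 12)] →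
    Test m v b) ∧
  -- the general rule
  (∀ v, v ≤ m → Exact (v + 1) (S N) → Tail (2 * N) (v + 3) → Test m v b) ∧
  -- the lower bound
  (∀ e, e ≤ m + 1 → Tail N (e + 1) → (Nat.fermatNumber m).Prime →
    (b : ZMod (Nat.fermatNumber m)) ^ ((Nat.fermatNumber m - 1) / 2 ^ e) = 1)

open Pool.Agent.K4H3.FE

lemma S_eq (N : ℕ) : S N = SS N := by
  unfold S SS aa
  have h2 : Finset.Icc 1 N = Finset.Ico 1 (N + 1) := by
    ext k
    simp only [Finset.mem_Icc, Finset.mem_Ico]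
    omega
  rw [h2, Finset.sum_Ico_eq_sum_range, Nat.add_sub_cancel]
  exact Finset.sum_congr rfl fun k _ => by rw [add_comm 1 k]

lemma tail_iff {n B : ℕ} (h : Tail n B) : ∀ k, n ≤ k → ∀ e : ℕ, 2 ^ e ∣ k + 1 → e + B ≤ k + 1 :=
  fun k hk e he => h (k + 1) (by omega) e he

lemma law_of {m N b : ℕ} (hm : 4 ≤ m) (h : OddLaw m N (b : ZMod (Nat.fermatNumber m))) :
    Law m N b := by
  have hb := bigm hm
  have hexp : ∀ c, c ≤ 2 ^ m → (Nat.fermatNumber m - 1) / 2 ^ c = 2 ^ (2 ^ m - c) := by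
    intro c hc
    unfold Nat.fermatNumber
    rw [Nat.add_sub_cancel, Nat.pow_div hc (by norm_num)]
  refine ⟨fun v hv ht => ?_, fun v hv hS hN => ?_, fun e he hN hF => ?_⟩
  · unfold Test
    rw [hexp _ (by omega)]
    exact tab_law ht hv h
  · unfold Test
    rw [hexp _ (by omega)]
    rw [S_eq] at hS
    exact h.2.1 v hv hS (tail_iff hN)
  · rw [hexp _ (by omega)]
    exact h.2.2 e he (tail_iff hN) hF

theorem result (m : ℕ) (hm : 4 ≤ m) (s : ℕ) (hs : Odd s) :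
    (∃ c, Odd c ∧ c < 2 ^ m ∧ (s * c ≡ 1 [MOD 2 ^ (m + 1)] ∨ s * c + 1 ≡ 0 [MOD 2 ^ (m + 1)])) ∧
    ∀ c, Odd c → c < 2 ^ m →
      (s * c ≡ 1 [MOD 2 ^ (m + 1)] ∨ s * c + 1 ≡ 0 [MOD 2 ^ (m + 1)]) →
      Law m (2 ^ m / c) (2 ^ s - 1) ∧ Law m (2 ^ m / (2 ^ m - c)) (2 ^ s + 1) := by
  constructor
  · obtain ⟨c, η, hc, hcm, h⟩ := exists_Inv (m := m) (by omega) hs
    refine ⟨c, hc, hcm, ?_⟩
    rcases h with h | h
    · exact Or.inl h.2
    · exact Or.inr h.2
  · intro c hc hcm hsc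
    obtain ⟨η, h⟩ : ∃ η, Inv m s c η := by
      rcases hsc with h | h
      · exact ⟨1, Or.inl ⟨rfl, h⟩⟩
      · exact ⟨-1, Or.inr ⟨rfl, h⟩⟩
    constructor
    · apply law_of hm
      apply odd_law hm hs h hc hcm
      left
      rw [Nat.cast_sub Nat.one_le_two_pow]
      push_cast
      ring
    · apply law_of hm
      have := odd_law_add hm hs h hc hcm
      convert this using 1
      push_cast
      ring

end Pool.Agent.Results.MP_37e5fa_nt.OddIndex
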